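import Pool.Agent.Helper59.KW.TA2
import Pool.Agent.Helper97.KW.SE1

/-!
Piece ID: `f e` lies in the crossed product of the ideal (MP_715b63_an).
-/

open CategoryTheory Topology
open scoped ENNReal

namespace Pool.Agent.KW

universe u v

section Main
variable {X : Type u} [Groupoid.{u} X] [TopologicalSpace X] [TopologicalSpace (Arr X)]

namespace ID

/-- the case of functions supported in a bisection -/
theorem bis_case [EtaleGroupoid X] {I A B : GAlg.{u, v} X} (ι : GHom I A) (π : GHom A B)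
    (h : GShortExact ι π) (η : Arr X → ℂ) (hη : IsCc η) (hb : BisSupp η) (a : ∀ x, A.fib x)
    (ha : a ∈ A.sec) (e : ∀ x, I.fib x) (he : e ∈ I.sec) :
    ∃ z ∈ algCrossed I, ∀ (x : X) (g k : Fibre x),
      ι.app x (z x g k) =
        genElem A η a x g k * ι.app x (I.act (Groupoid.inv k.2) (e k.1)) := by
  obtain ⟨U, hU, hKU, hs, ht⟩ := hb
  obtain ⟨θ, hθ, hθ1, hθU⟩ := exists_bump_eq_one (tsupport η) hη.2 U hU hKU hs ht
  have hθc : IsCc (fun g => ((θ g : ℝ) : ℂ)) := by
    refine ⟨Complex.continuous_ofReal.comp hθ.cont, ?_⟩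
    exact hθ.cpt.comp_left (g := Complex.ofReal) Complex.ofReal_zero
  have hbsec := I.act_cont _ hθc e he
  obtain ⟨c, hc, hcι⟩ := exists_mul_sec ι π h a ha _ hbsec
  refine ⟨genElem I η c, Submodule.subset_span ⟨η, hη, c, hc, rfl⟩, ?_⟩
  intro x g k
  unfold genElem
  rw [ι.equivariant, map_smul, hcι]
  by_cases h0 : η (quot g k) = 0
  · simp [h0]
  have hK : quot g k ∈ tsupport η := subset_tsupport η h0
  -- evaluation of the pushed forward section
  have hval : (∑ᶠ γ : Σ y, (y ⟶ g.1), ((θ ⟨γ.1, g.1, γ.2⟩ : ℝ) : ℂ) • I.act γ.2 (e γ.1)) =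
      I.act (Groupoid.inv k.2 ≫ g.2) (e k.1) := by
    rw [finsum_eq_single _ (⟨k.1, Groupoid.inv k.2 ≫ g.2⟩ : Σ y, (y ⟶ g.1))]
    · have h1 : θ ⟨k.1, g.1, Groupoid.inv k.2 ≫ g.2⟩ = 1 := hθ1 _ hK
      simp only [h1, Complex.ofReal_one, one_smul]
    · rintro ⟨y, γ⟩ hne
      have h0' : θ ⟨y, g.1, γ⟩ = 0 := by
        by_contra hne0
        have hin : (⟨y, g.1, γ⟩ : Arr X) ∈ U := hθU (subset_tsupport θ hne0)
        have heq := ht hin (hKU hK) rfl
        apply hne
        unfold quot at heq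
        injection heq with e1 e2 e3
        subst e1
        simp only [heq_eq_eq] at e3
        rw [e3]
      simp only [h0', Complex.ofReal_zero, zero_smul]
  rw [hval, ι.equivariant, ι.equivariant, ← smul_mul_assoc, map_mul]
  congr 1
  rw [← A.act_comp]
  congr 1
  simp
end ID

theorem exists_mul_right [EtaleGroupoid X] {I A B : GAlg.{u, v} X} (ι : GHom I A) (π : GHom A B)
    (h : GShortExact ι π) (f : MatFam A) (hf : f ∈ algCrossed A) (e : ∀ x, I.fib x)
    (he : e ∈ I.sec) :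
    ∃ z ∈ algCrossed I, ∀ (x : X) (g k : Fibre x),
      ι.app x (z x g k) = f x g k * ι.app x (I.act (Groupoid.inv k.2) (e k.1)) := by
  refine Submodule.span_induction (p := fun f _ => ∃ z ∈ algCrossed I,
    ∀ (x : X) (g k : Fibre x),
      ι.app x (z x g k) = f x g k * ι.app x (I.act (Groupoid.inv k.2) (e k.1)))
    ?_ ?_ ?_ ?_ hf
  · rintro f ⟨η, hη, a, ha, rfl⟩
    obtain ⟨r, ξ, hξ, hsum⟩ := exists_bisection_decomp η hη
    choose z hz hzι using fun i => ID.bis_case ι π h (ξ i) (hξ i).1 (hξ i).2 a ha e he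
    refine ⟨∑ i, z i, Submodule.sum_mem _ fun i _ => hz i, ?_⟩
    intro x g k
    have e1 : (∑ i, z i) x g k = ∑ i, z i x g k := by
      simp only [Finset.sum_apply]
    rw [e1, map_sum]
    have e2 : genElem A η a x g k = ∑ i, genElem A (ξ i) a x g k := by
      unfold genElem
      rw [hsum, Finset.sum_smul, map_sum]
    rw [e2, Finset.sum_mul]
    exact Finset.sum_congr rfl fun i _ => hzι i x g k
  · refine ⟨0, Submodule.zero_mem _, ?_⟩
    intro x g k
    simp
  · rintro f₁ f₂ _ _ ⟨z₁, h₁, h₁'⟩ ⟨z₂, h₂, h₂'⟩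
    refine ⟨z₁ + z₂, Submodule.add_mem _ h₁ h₂, ?_⟩
    intro x g k
    show ι.app x (z₁ x g k + z₂ x g k) = (f₁ x g k + f₂ x g k) * _
    rw [map_add, add_mul, h₁', h₂']
  · rintro c f₁ _ ⟨z₁, h₁, h₁'⟩
    refine ⟨c • z₁, Submodule.smul_mem _ c h₁, ?_⟩
    intro x g k
    show ι.app x (c • z₁ x g k) = (c • f₁ x g k) * _
    rw [map_smul, smul_mul_assoc, h₁']

end Main

end Pool.Agent.KW
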